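import Pool.Agent.H998.LT.Defs

set_option autoImplicit false

/-! # LT998 THETA -/

open MeasureTheory Real

namespace Pool.Agent.H227.LT

open Pool.Agent.H998.LT

theorem th_step {m : ℕ → ℕ} (hm : IsSeq m) (l : ℕ) : (m l : ℝ) * 2 ^ (l + 4) ≤ m (l + 1) := by
  have := hm.grow l
  rw [mul_comm]
  exact_mod_cast this

theorem th_grow {m : ℕ → ℕ} (hm : IsSeq m) (l j : ℕ) : (m l : ℝ) * 16 ^ j ≤ m (l + j) := by
  induction j with
  | zero => simp
  | succ j ih =>
    have h1 := th_step hm (l + j)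
    have h2 : (16 : ℝ) ≤ 2 ^ (l + j + 4) := by
      have : (2 : ℝ) ^ 4 ≤ 2 ^ (l + j + 4) := pow_le_pow_right₀ (by norm_num) (by omega)
      linarith
    have h3 : (0 : ℝ) ≤ m (l + j) := Nat.cast_nonneg _
    calc (m l : ℝ) * 16 ^ (j + 1) = (m l : ℝ) * 16 ^ j * 16 := by ring
      _ ≤ m (l + j) * 16 := by gcongr
      _ ≤ m (l + j) * 2 ^ (l + j + 4) := by gcongr
      _ ≤ m (l + j + 1) := h1

theorem th_dvd {m : ℕ → ℕ} (hm : IsSeq m) {i l : ℕ} (h : i < l) : 2 * m i ∣ m l := by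
  induction l with
  | zero => omega
  | succ l ih =>
    have h1 : 2 * m l ∣ m (l + 1) := by
      refine dvd_trans ⟨4 * (l + 1), ?_⟩ (hm.div l)
      ring
    rcases Nat.lt_succ_iff_lt_or_eq.1 h with h2 | h2
    · exact (ih h2).trans ((dvd_mul_left _ _).trans h1)
    · rw [h2]; exact h1

theorem th_term {m : ℕ → ℕ} (hm : IsSeq m) (i : ℕ) :
    1 / (2 * (m i : ℝ)) ≤ 1 / 2 * (1 / 16 : ℝ) ^ i := by
  have h1 := th_grow hm 0 i
  rw [zero_add] at h1
  have h2 : (1 : ℝ) ≤ m 0 := by exact_mod_cast hm.pos 0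
  have h3 : (16 : ℝ) ^ i ≤ m i := by
    refine le_trans ?_ h1
    have : (0 : ℝ) ≤ 16 ^ i := by positivity
    nlinarith
  rw [one_div_pow, one_div_mul_one_div]
  apply one_div_le_one_div_of_le (by positivity)
  linarith

theorem th_geo : Summable fun i : ℕ => (1 / 16 : ℝ) ^ i :=
  summable_geometric_of_lt_one (by norm_num) (by norm_num)

theorem th_geo_sum : ∑' i : ℕ, (1 / 16 : ℝ) ^ i = 16 / 15 := by
  rw [tsum_geometric_of_lt_one (by norm_num) (by norm_num)]
  norm_num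

theorem th_summable {m : ℕ → ℕ} (hm : IsSeq m) : Summable fun i => 1 / (2 * (m i : ℝ)) :=
  Summable.of_nonneg_of_le (fun i => by positivity) (th_term hm) (th_geo.mul_left _)

theorem th_exp (N : ℕ) (ε : ℝ) (hε : 0 ≤ ε) : ‖1 + e (-(N + 1 / 2 + ε))‖ ≤ 2 * π * ε := by
  have h1 : e (-(N + 1 / 2 + ε)) = -Complex.exp (Complex.I * ((-(2 * π * ε) : ℝ) : ℂ)) := by
    unfold e
    have h2 : 2 * (π : ℂ) * ((-(N + 1 / 2 + ε) : ℝ) : ℂ) * Complex.I =
        ((-(N : ℤ) - 1 : ℤ) : ℂ) * (2 * π * Complex.I) + π * Complex.I +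
          Complex.I * ((-(2 * π * ε) : ℝ) : ℂ) := by
      push_cast
      ring
    rw [h2, Complex.exp_add, Complex.exp_add, Complex.exp_int_mul_two_pi_mul_I,
      Complex.exp_pi_mul_I]
    ring
  rw [h1, ← sub_eq_add_neg, norm_sub_rev]
  refine (Real.norm_exp_I_mul_ofReal_sub_one_le).trans ?_
  rw [norm_neg, Real.norm_of_nonneg (by positivity)]

theorem t_theta : S_theta := by
  intro m hm
  have hs := th_summable hm
  refine ⟨?_, ?_, fun l => ?_⟩
  · unfold th
    refine hs.tsum_pos (fun i => by positivity) 0 ?_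
    have : (0 : ℝ) < m 0 := by exact_mod_cast hm.pos 0
    positivity
  · unfold th
    have h1 := hs.tsum_le_tsum (th_term hm) (th_geo.mul_left _)
    rw [tsum_mul_left, th_geo_sum] at h1
    linarith
  · have hl : (0 : ℝ) < m l := by exact_mod_cast hm.pos l
    have h1 := hs.sum_add_tsum_nat_add (l + 1)
    have h2 : (m l : ℝ) * ∑ i ∈ Finset.range (l + 1), 1 / (2 * (m i : ℝ)) =
        ((∑ i ∈ Finset.range l, m l / (2 * m i) : ℕ) : ℝ) + 1 / 2 := by
      rw [Finset.sum_range_succ, mul_add, Finset.mul_sum]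
      push_cast
      congr 1
      · refine Finset.sum_congr rfl fun i hi => ?_
        have h3 := th_dvd hm (Finset.mem_range.1 hi)
        have h4 : (2 * m i : ℕ) ≠ 0 := by
          have := hm.pos i
          omega
        rw [Nat.cast_div h3 (by exact_mod_cast h4)]
        push_cast
        ring
      · field_simp
    obtain ⟨ε, hε⟩ : ∃ ε, ε = (m l : ℝ) * ∑' j, 1 / (2 * (m (j + (l + 1)) : ℝ)) := ⟨_, rfl⟩
    have hε0 : 0 ≤ ε := by
      rw [hε]
      exact mul_nonneg hl.le (tsum_nonneg fun j => by positivity)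
    have hε1 : ε ≤ 8 / 15 * (1 / 2 : ℝ) ^ (l + 4) := by
      have h5 : ∀ j, 1 / (2 * (m (j + (l + 1)) : ℝ)) ≤
          (1 / (2 * (m l : ℝ)) * (1 / 2) ^ (l + 4)) * (1 / 16 : ℝ) ^ j := by
        intro j
        have h6 := th_grow hm (l + 1) j
        have h7 := th_step hm l
        rw [add_comm (l + 1) j] at h6
        have h8 : (m l : ℝ) * 2 ^ (l + 4) * 16 ^ j ≤ m (j + (l + 1)) := by
          refine le_trans ?_ h6
          gcongr
        rw [one_div_pow, one_div_pow, one_div_mul_one_div, one_div_mul_one_div]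
        apply one_div_le_one_div_of_le (by positivity)
        nlinarith
      have h9 := ((summable_nat_add_iff (l + 1)).2 hs).tsum_le_tsum h5 (th_geo.mul_left _)
      rw [tsum_mul_left, th_geo_sum] at h9
      rw [hε]
      calc (m l : ℝ) * ∑' j, 1 / (2 * (m (j + (l + 1)) : ℝ)) ≤
            m l * (1 / (2 * (m l : ℝ)) * (1 / 2) ^ (l + 4) * (16 / 15)) := by gcongr
        _ = _ := by field_simp; ring
    have h10 : (m l : ℝ) * th m =
        ((∑ i ∈ Finset.range l, m l / (2 * m i) : ℕ) : ℝ) + 1 / 2 + ε := by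
      unfold th
      rw [← h1, mul_add, h2, hε]
    unfold cc
    rw [h10]
    refine (th_exp _ _ hε0).trans ?_
    have h11 : (1 / 2 : ℝ) ^ (l + 2) = 4 * (1 / 2) ^ (l + 4) := by
      rw [pow_add, pow_add]; ring
    rw [h11]
    have h12 := Real.pi_lt_d2
    have h13 := Real.pi_pos
    have h14 : (0 : ℝ) < (1 / 2) ^ (l + 4) := by positivity
    calc 2 * π * ε ≤ 2 * π * (8 / 15 * (1 / 2 : ℝ) ^ (l + 4)) := by gcongr
      _ ≤ 2 * 3.15 * (8 / 15 * (1 / 2 : ℝ) ^ (l + 4)) := by gcongr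
      _ ≤ _ := by nlinarith

end Pool.Agent.H227.LT
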